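import Pool.Agent.Y879.PR.Hq
import Pool.Agent.Y879.GL.Pattern

set_option autoImplicit false

/-!
The ACTUAL primes `q` for which `(2 q n) ^ 2 + 1`, respectively `((2 n + 1) q) ^ 2 + 4`, is almost prime,
for EVERY `n` up to an arbitrary fixed power: their number and their exact distribution.
-/

namespace Pool.Agent.Results.MP_4b1228_nt.PrimesEveryN

open Finset Filter
open Pool.Agent.Y879.AP Pool.Agent.Y879.GL Pool.Agent.Y879.PR Pool.Agent.W123.RP Pool.Agent.H373R2.T7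
open Pool.Agent.TH464.PO Pool.Agent.TH464.PW Pool.Agent.W123.RU.Poly

/-- the two families: `h = 2 n`, `c = 1`, and `h = 2 n + 1`, `c = 4`, with `n ≥ 1` -/
def Fam (h c : ℕ) : Prop := (∃ n : ℕ, 1 ≤ n ∧ h = 2 * n ∧ c = 1) ∨ (∃ n : ℕ, 1 ≤ n ∧ h = 2 * n + 1 ∧ c = 4)

/-- neither `q` nor `(h q) ^ 2 + c` has a prime factor `p ≤ N ^ (1 / r)` -/
def Good (N r h c q : ℕ) : Prop :=
  ∀ p : ℕ, p.Prime → (p : ℝ) ≤ (N : ℝ) ^ (1 / (r : ℝ)) → ¬ p ∣ q ∧ ¬ p ∣ (h * q) ^ 2 + c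

/-- the number of the residues `q` modulo `p` such that `p` divides `q` or `(h q) ^ 2 + c` -/
def nu (h c p : ℕ) : ℕ := ((range p).filter (fun q => p ∣ q ∨ p ∣ (h * q) ^ 2 + c)).card

/-- the density of the good numbers: the product of `1 - nu(p) / p` over the primes `p ≤ N ^ (1 / r)` -/
noncomputable def V (N r h c : ℕ) : ℝ :=
  ∏ p ∈ (Icc 1 ⌊(N : ℝ) ^ (1 / (r : ℝ))⌋₊).filter Nat.Prime, (1 - (nu h c p : ℝ) / p)

/-- the product of `(1 - nu(p) / p) / (1 - 1 / p)` over the primes `p ≤ N ^ (1 / r)` -/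
noncomputable def W (N r h c : ℕ) : ℝ :=
  ∏ p ∈ (Icc 1 ⌊(N : ℝ) ^ (1 / (r : ℝ))⌋₊).filter Nat.Prime, (1 - (nu h c p : ℝ) / p) / (1 - 1 / (p : ℝ))

open Classical in
/-- the good PRIMES in `(u, u + Y]` -/
noncomputable def Pr (N r h c u Y : ℕ) : Finset ℕ :=
  (Ioc u (u + Y)).filter (fun q => q.Prime ∧ Good N r h c q)

open Classical in
/-- the number of the good numbers in `(q, q + T]` -/
noncomputable def Next (N r h c T q : ℕ) : ℕ := ((Ioc q (q + T)).filter (Good N r h c)).card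

open Classical in
/-- the number of the good `q` in `(u, u + Y]` with fewer than `k` good numbers in `[q - T, q)` -/
noncomputable def Near (N r h c k T u Y : ℕ) : ℕ :=
  ((Ioc u (u + Y)).filter (fun q => Good N r h c q ∧
    ((Ico (q - T) q).filter (Good N r h c)).card < k)).card

/-- the Poisson weight of the set `B` -/
noncomputable def Poi (x : ℝ) (B : Finset ℕ) : ℝ := ∑ j ∈ B, Real.exp (-x) * x ^ j / j.factorial

lemma fam_hc {h c : ℕ} (hf : Fam h c) : FamHC h c := by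
  rcases hf with ⟨n, hn, rfl, rfl⟩ | ⟨n, hn, rfl, rfl⟩
  · exact ⟨by omega, Or.inl ⟨even_two_mul n, rfl⟩⟩
  · exact ⟨by omega, Or.inr ⟨odd_two_mul_add_one n, rfl⟩⟩

lemma good_iff (N r h c n : ℕ) : Good N r h c n ↔ Sf (Q (hq h c)) ⌊(N : ℝ) ^ (1 / (r : ℝ))⌋₊ n := by
  have key : ∀ p : ℕ, (¬ Q (hq h c) p n ↔ ¬ p ∣ n ∧ ¬ p ∣ (h * n) ^ 2 + c) := by
    intro p
    rw [hq_Q, not_or]
  unfold Good Sf
  constructor
  · intro h p hp
    obtain ⟨hp1, hp2⟩ := mem_pz.1 hp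
    exact (key p).2 (h p hp2 ((Nat.le_floor_iff (by positivity)).1 hp1))
  · intro h p hp hpr
    exact (key p).1 (h p (mem_pz.2 ⟨Nat.le_floor hpr, hp⟩))

lemma nu_eq (h c p : ℕ) : nuB (Q (hq h c)) p = nu h c p := by
  classical
  unfold nu nuB
  exact card_iff _ _ (fun r _ => hq_Q h c p r)

lemma V_eq (N r h c : ℕ) : V N r h c = Vq (Q (hq h c)) ⌊(N : ℝ) ^ (1 / (r : ℝ))⌋₊ := by
  unfold V Vq
  apply Finset.prod_congr rfl
  intro p hp
  rw [nu_eq]

lemma W_eq (N r h c : ℕ) : W N r h c = V N r h c / Vz ⌊(N : ℝ) ^ (1 / (r : ℝ))⌋₊ := by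
  unfold W V Vz
  rw [Finset.prod_div_distrib]
  rfl

lemma pr_eq (N r h c u Y : ℕ) : Pr N r h c u Y =
    Om 1 0 (Q (hq h c)) ⌊(N : ℝ) ^ (1 / (r : ℝ))⌋₊ u Y := by
  unfold Pr Om
  ext n
  simp only [Finset.mem_filter, good_iff, one_mul, add_zero]

lemma goodf (N r h c : ℕ) : Good N r h c = Sf (Q (hq h c)) ⌊(N : ℝ) ^ (1 / (r : ℝ))⌋₊ :=
  funext fun m => propext (good_iff N r h c m)

lemma near_eq (N r h c k T u Y : ℕ) : Near N r h c k T u Y =
    Pk (Sf (Q (hq h c)) ⌊(N : ℝ) ^ (1 / (r : ℝ))⌋₊) k T u Y := by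
  unfold Near Pk
  rw [goodf]

/-- **Primes `q` with `(2 q n) ^ 2 + 1` or `((2 n + 1) q) ^ 2 + 4` almost prime, uniformly in `n`.** For all
`E`, `θ > 0`, `0 < δ ≤ 1`, `0 < ε ≤ 1`, `k₀` and `x₀` there is `r₀` such that for every `r ≥ r₀`, every
large `N` and EVERY `h ≤ N ^ E` of the two families:

(1) for good `0 < q ≤ N` the number `q` has at most `r` and `(h q) ^ 2 + c` at most `(2 E + 3) r` prime
factors;

(2) if `q > N ^ (1 / r)` and `(h q) ^ 2 + c` are primes then `q` is good;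

(3) if `X ≥ N ^ θ`, `u, Y ≥ δ X` and `u + Y ≤ X`, the number of the good PRIMES `q` in `(u, u + Y]` is
`(1 + η) Y W / log X`, `|η| ≤ ε`, and at these `q` the number of the good numbers in `(q, q + T]` has the
Poisson law of mean `T V`, up to `ε`, for all `T` with `T V ≤ x₀`;

(4) in every interval `(u, u + Y]` with `Y ≥ N ^ θ` the number of the good `q` with fewer than `k` good
numbers in `[q - T, q)` is `Y V (∑ j < k, e ^ (-T V) (T V) ^ j / j! + η)` with `|η| ≤ ε`, provided that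
`k ≤ k₀` or `T V ≤ x₀`. -/
theorem result (E : ℕ) (θ δ x₀ ε : ℝ) (k₀ : ℕ) (hθ : 0 < θ) (hδ : 0 < δ) (hδ1 : δ ≤ 1) (hε : 0 < ε)
    (hε1 : ε ≤ 1) :
    ∃ r₀ : ℕ, ∀ r : ℕ, r₀ ≤ r → ∃ N₀ : ℕ, ∀ N : ℕ, N₀ ≤ N → ∀ h c : ℕ, Fam h c → h ≤ N ^ E →
      (∀ q : ℕ, 0 < q → q ≤ N → Good N r h c q →
        q.primeFactorsList.length ≤ r ∧ ((h * q) ^ 2 + c).primeFactorsList.length ≤ (2 * E + 3) * r) ∧
      (∀ q : ℕ, q.Prime → ((h * q) ^ 2 + c).Prime → (N : ℝ) ^ (1 / (r : ℝ)) < q → Good N r h c q) ∧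
      (0 < W N r h c ∧ ∀ X u Y : ℕ, (N : ℝ) ^ θ ≤ X → δ * X ≤ u → δ * X ≤ Y → u + Y ≤ X →
        |((Pr N r h c u Y).card : ℝ) * Real.log X - Y * W N r h c| ≤ ε * (Y * W N r h c) ∧
        ∀ T : ℕ, T * V N r h c ≤ x₀ → ∀ B : Finset ℕ,
          |(((Pr N r h c u Y).filter (fun q => Next N r h c T q ∈ B)).card : ℝ) -
            (Pr N r h c u Y).card * Poi (T * V N r h c) B| ≤ ε * (Pr N r h c u Y).card) ∧
      ∀ u Y k T : ℕ, (N : ℝ) ^ θ ≤ Y → (k ≤ k₀ ∨ T * V N r h c ≤ x₀) →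
        |(Near N r h c k T u Y : ℝ) - Y * V N r h c * Poi (T * V N r h c) (range k)| ≤
          ε * (Y * V N r h c) := by
  obtain ⟨r1, hr12, hpr⟩ := prime_polys 1 2 2 squarefree_one (2 * E + 1) 1 θ δ (by positivity)
    (by norm_num) hθ hδ hδ1 x₀ ε hε hε1
  obtain ⟨r2, hgap⟩ := gap_polys 2 2 (2 * E + 1) 1 θ (by positivity) (by norm_num) hθ k₀ x₀ ε hε
  refine ⟨max r1 r2, ?_⟩
  intro r hr
  have hr1' : r1 ≤ r := (le_max_left _ _).trans hr
  have hr2' : r2 ≤ r := (le_max_right _ _).trans hr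
  have hr2 : 2 ≤ r := hr12.trans hr1'
  have hrr : (2 : ℝ) ≤ r := by exact_mod_cast hr2
  obtain ⟨C, hC, hV⟩ := V_up_base 1 (by norm_num) r hr2
  have hz : ∀ᶠ K : ℕ in atTop, (2 : ℝ) ≤ (K : ℝ) ^ (1 / (r : ℝ)) :=
    ((tendsto_rpow_atTop (by positivity)).comp tendsto_natCast_atTop_atTop).eventually_ge_atTop _
  have hall := (hpr r hr1' C).and ((hgap r hr2' C).and (hV.and hz))
  obtain ⟨N0, hN0⟩ := eventually_atTop.1 hall
  refine ⟨max N0 5, ?_⟩
  intro N hN h c hfam hhN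
  have hN5 : 5 ≤ N := (le_max_right _ _).trans hN
  obtain ⟨h1, h2, h3, h4⟩ := hN0 N ((le_max_left _ _).trans hN)
  have hNr : (5 : ℝ) ≤ N := by exact_mod_cast hN5
  have hNpos : (0 : ℝ) < N := by linarith
  have hpow : ((N : ℝ) ^ (1 / (r : ℝ))) ^ r = N := by
    rw [← Real.rpow_natCast, ← Real.rpow_mul hNpos.le, one_div, inv_mul_cancel₀ (by linarith),
      Real.rpow_one]
  have hfhc := fam_hc hfam
  have hh0 : 0 < h := hfhc.1
  have hc4 : c ≤ 4 := by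
    rcases hfhc.2 with ⟨_, rfl⟩ | ⟨_, rfl⟩ <;> norm_num
  have hus : US 2 2 ((N : ℝ) ^ (2 * (E : ℝ) + 1)) ((N : ℝ) ^ (1 : ℝ)) (hq h c) := by
    apply hq_us h c hfhc
    have e1 : (N : ℝ) ^ (2 * (E : ℝ) + 1) = ((N : ℝ) ^ E) ^ 2 * N := by
      rw [Real.rpow_add hNpos, Real.rpow_one, mul_comm (2 : ℝ), Real.rpow_mul hNpos.le,
        Real.rpow_natCast]
      norm_num
    rw [e1]
    have h5 : (h : ℝ) ≤ (N : ℝ) ^ E := by exact_mod_cast hhN
    have h6 : (1 : ℝ) ≤ h := by exact_mod_cast hh0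
    have h7 : (h : ℝ) ^ 2 ≤ ((N : ℝ) ^ E) ^ 2 := pow_le_pow_left₀ (by linarith) h5 2
    have h8 : (1 : ℝ) ≤ (h : ℝ) ^ 2 := one_le_pow₀ h6
    nlinarith
  have hVN : Vq (Q (hq h c)) ⌊(N : ℝ) ^ (1 / (r : ℝ))⌋₊ ≤ C / Real.log N :=
    h3 _ (fun p hp _ => hq_nu h c p hp)
  refine ⟨?_, ?_, ⟨?_, ?_⟩, ?_⟩
  · intro q hq0 hqN hg
    constructor
    · refine few_of_rough ((N : ℝ) ^ (1 / (r : ℝ))) (by linarith) q r (by omega) ?_ ?_
      · rw [hpow]
        exact_mod_cast hqN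
      · intro p hp hpn
        by_contra hcon
        rw [not_lt] at hcon
        exact (hg p hp hcon).1 hpn
    · refine few_of_rough ((N : ℝ) ^ (1 / (r : ℝ))) (by linarith) ((h * q) ^ 2 + c) ((2 * E + 3) * r)
        (by positivity) ?_ ?_
      · rw [mul_comm (2 * E + 3) r, pow_mul, hpow]
        have h5 : (h * q) ^ 2 + c ≤ N ^ (2 * E + 3) := by
          have h6 : h * q ≤ N ^ E * N := Nat.mul_le_mul hhN hqN
          have h7 : (h * q) ^ 2 ≤ (N ^ E * N) ^ 2 := Nat.pow_le_pow_left h6 2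
          have h8 : (N ^ E * N) ^ 2 = N ^ (2 * E + 2) := by ring
          have h9 : N ^ (2 * E + 3) = N ^ (2 * E + 2) * N := by ring
          have h10 : 1 ≤ N ^ (2 * E + 2) := Nat.one_le_pow _ _ (by omega)
          rw [h9]
          rw [h8] at h7
          nlinarith
        exact_mod_cast h5
      · intro p hp hpn
        by_contra hcon
        rw [not_lt] at hcon
        exact (hg p hp hcon).2 hpn
  · intro q hq hv hz p hp hpz
    have hqv : q ≤ (h * q) ^ 2 + c := by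
      have h5 : 1 ≤ h := hh0
      have h6 : q ≤ h * q := Nat.le_mul_of_pos_left q hh0
      have h7 : h * q ≤ (h * q) ^ 2 := Nat.le_self_pow (by norm_num) _
      omega
    constructor
    · intro hd
      rw [(Nat.prime_dvd_prime_iff_eq hp hq).1 hd] at hpz
      linarith
    · intro hd
      rw [(Nat.prime_dvd_prime_iff_eq hp hv).1 hd] at hpz
      have h5 : (q : ℝ) ≤ (((h * q) ^ 2 + c : ℕ) : ℝ) := by exact_mod_cast hqv
      linarith
  · rw [W_eq]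
    refine div_pos ?_ (Pool.Agent.Y879.PR.Vz_pos _)
    unfold V
    apply Finset.prod_pos
    intro p hp
    have hpp := (Finset.mem_filter.1 hp).2
    have hlt := us_adm hus p hpp
    rw [nu_eq h c p] at hlt
    have h5 : (nu h c p : ℝ) < p := by exact_mod_cast hlt
    have h6 : (0 : ℝ) < p := by exact_mod_cast hpp.pos
    rw [sub_pos, div_lt_one h6]
    exact h5
  · intro X u Y hX hu hY huY
    have h5 := h1 (hq h c) 0 hus (by norm_num)
      (fun p n hp hp1 => absurd (Nat.dvd_one.1 hp1) hp.one_lt.ne')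
      ⟨0, fun n => by
        rw [hq_eval0]
        simp⟩ hVN X hX (Nat.zero_le _) u Y hu hY huY
    rw [← pr_eq, ← V_eq, ← W_eq] at h5
    refine ⟨h5.1, ?_⟩
    intro T hT B
    have h6 := h5.2 T hT B
    rw [← goodf] at h6
    exact h6
  · intro u Y k T hY hkT
    rw [V_eq] at hkT ⊢
    have h5 := h2 (hq h c) hus hVN u Y hY k T hkT
    rw [near_eq]
    exact h5

end Pool.Agent.Results.MP_4b1228_nt.PrimesEveryN
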