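import Pool.Agent.Y816.PD.Chain

set_option autoImplicit false

/-!
# The numbers `(2 q n) ^ 2 + 1` (`q` prime, `n > 1`) with few prime factors and restricted digits of `q n`

The integers `m < b ^ K` whose `i`-th digit in base `b` belongs to an arbitrary set `A i` (for all `i < K`)
are considered, the product of the `|A i|` being at least `exp (- c K) b ^ K`.
-/

namespace Pool.Agent.Results.MP_4b1228_nt.RestrictedDigits

open Finset Filter
open Pool.Agent.Y816.PD (ND NA)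

/-- All prime factors of `(2 m) ^ 2 + 1` are larger than `m ^ (1 / r)`. -/
def R (r : ℕ) : Set ℕ :=
  {m | ∀ l : ℕ, l.Prime → l ∣ (2 * m) ^ 2 + 1 → (m : ℝ) ^ (1 / (r : ℝ)) < (l : ℝ)}

/-- The `m` of `R r` of the form `q n` with `q` prime and `n > 1` for which `(2 q n) ^ 2 + 1` has at most `r`
prime factors. -/
def P (r : ℕ) : Set ℕ :=
  {m | m ∈ R r ∧ ((2 * m) ^ 2 + 1).primeFactorsList.length ≤ r ∧ ∃ q n : ℕ, q.Prime ∧ 1 < n ∧ m = q * n}

lemma dvd_iff (m p : ℕ) : (p : ℤ) ∣ (4 : ℤ) * (m : ℤ) ^ 2 + 0 * (m : ℤ) + 1 ↔ p ∣ (2 * m) ^ 2 + 1 := by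
  rw [← Int.natCast_dvd_natCast]
  have : (4 : ℤ) * (m : ℤ) ^ 2 + 0 * (m : ℤ) + 1 = (((2 * m) ^ 2 + 1 : ℕ) : ℤ) := by push_cast; ring
  rw [this]

lemma natAbs_eq (m : ℕ) : ((4 : ℤ) * (m : ℤ) ^ 2 + 0 * (m : ℤ) + 1).natAbs = (2 * m) ^ 2 + 1 := by
  have : (4 : ℤ) * (m : ℤ) ^ 2 + 0 * (m : ℤ) + 1 = (((2 * m) ^ 2 + 1 : ℕ) : ℤ) := by push_cast; ring
  rw [this, Int.natAbs_natCast]

lemma noSq : ¬ IsSquare ((0 : ℤ) ^ 2 - 4 * 4 * 1) := by
  rintro ⟨s, hs⟩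
  nlinarith [mul_self_nonneg s]

/-- **The numbers `(2 q n) ^ 2 + 1` with few prime factors when the digits of `q n` are restricted.** -/
theorem result :
    ∃ c : ℝ, 0 < c ∧ ∃ r₀ : ℕ, 2 ≤ r₀ ∧ ∀ r : ℕ, r₀ ≤ r →
      (∀ q n : ℕ, q.Prime → 1 < n → ((2 * q * n) ^ 2 + 1).Prime → q * n ∈ R r) ∧
      ∀ b : ℕ, 2 ≤ b → ∃ κ C : ℝ, 0 < κ ∧ 0 < C ∧ ∀ᶠ K : ℕ in atTop, ∀ A : ℕ → Finset ℕ,
        (∀ i < K, A i ⊆ range b) → (b : ℝ) ^ K ≤ Real.exp (c * K) * NA K A →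
        ((∃ d ∈ A 0, ((2 * d) ^ 2 + 1).Coprime b) → κ * NA K A / (K : ℝ) ≤ ND b K A (P r)) ∧
        (ND b K A (R r) : ℝ) ≤ C * NA K A / (K : ℝ) := by
  have hg : ∀ p : ℕ, p.Prime → ¬ ((p : ℤ) ∣ (4 : ℤ) ∧ (p : ℤ) ∣ (0 : ℤ) ∧ (p : ℤ) ∣ (1 : ℤ)) := by
    rintro p hp ⟨-, -, h⟩
    have := Int.natCast_dvd_natCast.1 (show (p : ℤ) ∣ ((1 : ℕ) : ℤ) by exact_mod_cast h)
    exact hp.one_lt.ne' (Nat.dvd_one.1 this)
  obtain ⟨c1, hc1, r1, hr1, h1⟩ := Pool.Agent.Y816.PD.digits_quad 4 0 1 (by norm_num) hg noSq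
    (by
      intro p hp
      refine ⟨0, fun h => ?_⟩
      rw [dvd_iff] at h
      norm_num at h
      exact hp.one_lt.ne' h) R
    (fun r => {m | m ∈ R r ∧ ((2 * m) ^ 2 + 1).primeFactorsList.length ≤ r})
    (fun r m _ hm p hp hd => hm p hp ((dvd_iff m p).1 hd))
    (fun r m _ h1 h2 => ⟨fun p hp hd => h1 p hp ((dvd_iff m p).2 hd), by rwa [natAbs_eq] at h2⟩)
    (fun b d => ((2 * d) ^ 2 + 1).Coprime b)
    (fun b d hb hcop p hp hpb hd => by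
      rw [dvd_iff] at hd
      exact hp.one_lt.ne' (Nat.dvd_one.1 (hcop ▸ Nat.dvd_gcd hd hpb)))
  obtain ⟨c2, hc2, r2, hr2, h2⟩ := Pool.Agent.Y816.PD.digits_quadX 4 0 1 (by norm_num) hg noSq
    (by
      intro p hp
      by_cases h5 : p = 5
      · subst h5
        refine ⟨2, by decide, ?_⟩
        rw [dvd_iff]
        decide
      · refine ⟨1, fun h => hp.one_lt.ne' (Nat.dvd_one.1 h), fun h => h5 ?_⟩
        rw [dvd_iff] at h
        have h51 : (2 * 1) ^ 2 + 1 = 5 := by norm_num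
        rw [h51] at h
        exact (Nat.prime_dvd_prime_iff_eq hp (by norm_num)).1 h)
    (fun r => {m | (∀ p : ℕ, p.Prime → p ∣ m → (m : ℝ) ^ (1 / (r : ℝ)) < (p : ℝ)) ∧ m ∈ R r}) (fun _ => Set.univ)
    (fun r m _ hm => ⟨hm.1, fun p hp hd => hm.2 p hp ((dvd_iff m p).1 hd)⟩)
    (fun _ _ _ _ _ _ _ => Set.mem_univ _) (fun _ _ => False) (fun _ _ _ h => h.elim)
  refine ⟨min c1 c2, lt_min hc1 hc2, max r1 r2, hr1.trans (le_max_left _ _), fun r hr =>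
    ⟨fun q n hq hn hp l hl hd => ?_, fun b hb => ?_⟩⟩
  · have h2r : 2 ≤ r := hr1.trans ((le_max_left _ _).trans hr)
    have e : (2 * (q * n)) ^ 2 + 1 = (2 * q * n) ^ 2 + 1 := by ring
    rw [e] at hd
    rw [(Nat.prime_dvd_prime_iff_eq hl hp).1 hd]
    refine Pool.Agent.TH977.PW.rpow_lt_of_le r (q * n) _ h2r ?_ ?_
    · have := hq.two_le
      nlinarith
    · have h1 : 1 ≤ q * n := Nat.mul_pos hq.pos (by omega)
      nlinarith
  have h2r : 2 ≤ r := hr1.trans ((le_max_left _ _).trans hr)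
  obtain ⟨κ, C, hκ, hC, h1⟩ := h1 r ((le_max_left _ _).trans hr) b hb
  obtain ⟨κ', C', hκ', hC', h2⟩ := h2 r ((le_max_right _ _).trans hr) b hb
  refine ⟨κ / 2, C, by positivity, hC, ?_⟩
  filter_upwards [h1, h2, Pool.Agent.Y816.PD.remove (C := C') hκ 1] with K hK1 hK2 hK3 A hA hprod
  have hNA := Pool.Agent.Y816.PD.NA_nonneg K A
  have hp1 : (b : ℝ) ^ K ≤ Real.exp (c1 * K) * NA K A := by
    refine hprod.trans (mul_le_mul_of_nonneg_right ?_ hNA)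
    apply Real.exp_le_exp.2
    exact mul_le_mul_of_nonneg_right (min_le_left _ _) (Nat.cast_nonneg _)
  have hp2 : (b : ℝ) ^ K ≤ Real.exp (c2 * K) * NA K A := by
    refine hprod.trans (mul_le_mul_of_nonneg_right ?_ hNA)
    apply Real.exp_le_exp.2
    exact mul_le_mul_of_nonneg_right (min_le_right _ _) (Nat.cast_nonneg _)
  have e1 := hK1 A hA hp1
  rw [pow_one] at e1
  refine ⟨fun hd => ?_, e1.2⟩
  have e3 := hK3 b A {m | m ∈ R r ∧ ((2 * m) ^ 2 + 1).primeFactorsList.length ≤ r} (P r)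
    {m | (∀ p : ℕ, p.Prime → p ∣ m → (m : ℝ) ^ (1 / (r : ℝ)) < (p : ℝ)) ∧ m ∈ R r} ?_
    (by rw [pow_one]; exact e1.1 hd) (hK2 A hA hp2).2
  · rwa [pow_one] at e3
  intro m hm
  obtain ⟨hmR, hml⟩ := hm
  by_cases hex : ∃ q n : ℕ, q.Prime ∧ 1 < n ∧ m = q * n
  · exact Or.inl ⟨hmR, hml, hex⟩
  · right
    refine ⟨?_, hmR⟩
    have hr0 : (0 : ℝ) < r := by exact_mod_cast (by omega : 0 < r)
    by_cases hm1 : m ≤ 1
    · intro p hp _
      have h3 : (m : ℝ) ^ (1 / (r : ℝ)) ≤ 1 := by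
        apply Real.rpow_le_one (Nat.cast_nonneg _) _ (by positivity)
        exact_mod_cast hm1
      have hp2 : (2 : ℝ) ≤ p := by exact_mod_cast hp.two_le
      linarith
    · push Not at hm1
      have hmp : m.Prime := by
        by_contra hnp
        refine hex ⟨m.minFac, m / m.minFac, Nat.minFac_prime (by omega), ?_, (Nat.mul_div_cancel' (Nat.minFac_dvd m)).symm⟩
        have h3 := Nat.mul_div_cancel' (Nat.minFac_dvd m)
        have h4 : m.minFac < m := (Nat.not_prime_iff_minFac_lt (by omega)).1 hnp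
        by_contra hcon
        have h5 := Nat.le_one_iff_eq_zero_or_eq_one.1 (not_lt.1 hcon)
        rcases h5 with h5 | h5
        · rw [h5] at h3
          omega
        · rw [h5] at h3
          omega
      intro p hp hd
      exact Pool.Agent.TH977.PW.rpow_lt_dvd r m p h2r hmp hp hd

end Pool.Agent.Results.MP_4b1228_nt.RestrictedDigits
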