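import Pool.Agent.Y677.KU.SqF

set_option autoImplicit false

/-!
# The Ankeny–Chowla–Hasse and Lang families with few prime factors, uniformly in the prime `q`

`(2 q n) ^ 2 + 1` and `((2 n + 1) q) ^ 2 + 4` for ALL primes `q` (up to a power of the length of the
interval of the `n`): for `n` in every interval `(X, X + Y]` with `(2 q X) ^ θ ≤ Y ≤ X` the right
number of values with at most `r` prime factors, none of them small, and long arithmetic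
progressions of such `n` with difference at most `(log X) ^ B`, inside every dense set of `n` with
values without small prime factors. For instance `r = 3`, all primes `q ≤ X ^ (1 / 4 - ε)`.
-/

namespace Pool.Agent.Results.MP_4b1228_nt.UniformInQ

open Finset Filter
open Pool.Agent.TH977.PW (N)
open Pool.Agent.Y677.RSZ (InProg Outside)

/-- All prime factors of `(2 q n) ^ 2 + 1` are larger than `(2 q n) ^ (1 / s)`. -/
def RA (q s : ℕ) : Set ℕ := {n | ∀ p : ℕ, p.Prime → p ∣ (2 * q * n) ^ 2 + 1 →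
  ((2 * q * n : ℕ) : ℝ) ^ (1 / (s : ℝ)) < (p : ℝ)}

/-- The `n` of `RA q s` for which `(2 q n) ^ 2 + 1` has at most `r` prime factors. -/
def PA (q r s : ℕ) : Set ℕ := {n | n ∈ RA q s ∧ ((2 * q * n) ^ 2 + 1).primeFactorsList.length ≤ r}

/-- All prime factors of `((2 n + 1) q) ^ 2 + 4` are larger than `((2 n + 1) q) ^ (1 / s)`. -/
def RB (q s : ℕ) : Set ℕ := {n | ∀ p : ℕ, p.Prime → p ∣ ((2 * n + 1) * q) ^ 2 + 4 →
  (((2 * n + 1) * q : ℕ) : ℝ) ^ (1 / (s : ℝ)) < (p : ℝ)}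

/-- The `n` of `RB q s` for which `((2 n + 1) q) ^ 2 + 4` has at most `r` prime factors. -/
def PB (q r s : ℕ) : Set ℕ :=
  {n | n ∈ RB q s ∧ (((2 * n + 1) * q) ^ 2 + 4).primeFactorsList.length ≤ r}

/-- The sets for which the statement is made. -/
def Fam (q r s : ℕ) (P R : Set ℕ) : Prop :=
  (P = PA q r s ∧ R = RA q s) ∨ (q ≠ 2 ∧ P = PB q r s ∧ R = RB q s)

lemma RA_eq (q s : ℕ) : RA q s = Pool.Agent.Y677.KU.Ra (Pool.Agent.Y677.KU.sqF 1) 0 (2 * q) s := by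
  ext n
  rw [Pool.Agent.Y677.KU.mem_Ra_sqF, Nat.zero_add]
  rfl

lemma PA_eq (q r s : ℕ) :
    PA q r s = Pool.Agent.Y677.KU.Pa (Pool.Agent.Y677.KU.sqF 1) 0 (2 * q) r s := by
  ext n
  rw [Pool.Agent.Y677.KU.mem_Pa_sqF, ← RA_eq, Nat.zero_add]
  rfl

lemma lin_eq (q n : ℕ) : q + 2 * q * n = (2 * n + 1) * q := by ring

lemma RB_eq (q s : ℕ) : RB q s = Pool.Agent.Y677.KU.Ra (Pool.Agent.Y677.KU.sqF 4) q (2 * q) s := by
  ext n
  rw [Pool.Agent.Y677.KU.mem_Ra_sqF, lin_eq]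
  rfl

lemma PB_eq (q r s : ℕ) :
    PB q r s = Pool.Agent.Y677.KU.Pa (Pool.Agent.Y677.KU.sqF 4) q (2 * q) r s := by
  ext n
  rw [Pool.Agent.Y677.KU.mem_Pa_sqF, ← RB_eq, lin_eq]
  rfl

lemma copA (q : ℕ) : Pool.Agent.Y677.KU.Cop (Pool.Agent.Y677.KU.sqF 1) 0 (2 * q) := by
  apply Pool.Agent.Y677.KU.sqF_cop
  intro p hp _ h
  exact hp.one_lt.ne' (Nat.dvd_one.1 (by simpa using h))

lemma copB (q : ℕ) (hq : q.Prime) (hq2 : q ≠ 2) :
    Pool.Agent.Y677.KU.Cop (Pool.Agent.Y677.KU.sqF 4) q (2 * q) := by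
  have hodd : q % 2 = 1 := hq.eq_two_or_odd.resolve_left hq2
  apply Pool.Agent.Y677.KU.sqF_cop
  intro p hp hpq h
  rcases (Nat.Prime.dvd_mul hp).1 hpq with h1 | h1
  · have h2 : p = 2 := (Nat.prime_dvd_prime_iff_eq hp Nat.prime_two).1 h1
    subst h2
    have h3 : (q ^ 2 + 4) % 2 = 1 := by
      rw [Nat.add_mod, Nat.pow_mod, hodd]
    omega
  · have h2 : p = q := (Nat.prime_dvd_prime_iff_eq hp hq).1 h1
    subst h2
    have h3 : p ∣ 4 := (Nat.dvd_add_right (dvd_pow_self p two_ne_zero)).1 h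
    have h4 : p ∣ 2 ^ 2 := by simpa using h3
    exact hq2 ((Nat.prime_dvd_prime_iff_eq hp Nat.prime_two).1 (hp.dvd_of_dvd_pow h4))

lemma omega_le (q : ℕ) (hq : q.Prime) : (2 * q).primeFactors.card ≤ 2 := by
  rw [Nat.primeFactors_mul two_ne_zero hq.ne_zero, Nat.prime_two.primeFactors, hq.primeFactors]
  exact (card_union_le _ _).trans (by simp)

/-- **The two families, uniformly in `q`.** -/
theorem result (r s : ℕ) (hr : 1 ≤ r) (hs : 2 ≤ s) :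
    (∀ q n : ℕ, q.Prime → 1 ≤ n → ((2 * q * n) ^ 2 + 1).Prime → n ∈ PA q r s) ∧
    (∀ q n : ℕ, q.Prime → (((2 * n + 1) * q) ^ 2 + 4).Prime → n ∈ PB q r s) ∧
    (∀ θ : ℝ, 0 < θ → θ ≤ 1 → 8 < θ * (3 * r + 1) → 2 < θ * r - (r - 1) / s → 2 < θ * s →
      (∃ κ : ℝ, 0 < κ ∧ ∀ᶠ X : ℕ in atTop, ∀ q Y : ℕ, q.Prime → ((2 * q * X : ℕ) : ℝ) ^ θ ≤ Y →
        Y ≤ X → ∀ P R : Set ℕ, Fam q r s P R → κ * Y / Real.log X ≤ N P X (X + Y)) ∧
      ∀ l : ℕ, ∃ B : ℕ, ∀ᶠ X : ℕ in atTop, ∀ q Y : ℕ, q.Prime → ((2 * q * X : ℕ) : ℝ) ^ θ ≤ Y →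
        Y ≤ X → ∀ P R : Set ℕ, Fam q r s P R → ∃ u d : ℕ, 1 ≤ d ∧ (d : ℝ) ≤ Real.log X ^ B ∧
          ∀ i < l, u + i * d ∈ P ∧ X < u + i * d ∧ u + i * d ≤ X + Y) ∧
    ∀ θ : ℝ, 0 < θ → ∀ l : ℕ, 2 ≤ l → ∀ ε : ℝ, 0 < ε → ∃ B : ℕ, ∀ᶠ X : ℕ in atTop, ∀ q Y : ℕ,
      q.Prime → ((2 * q * X : ℕ) : ℝ) ^ θ ≤ Y → Y ≤ X → ∀ P R : Set ℕ, Fam q r s P R →
        ∀ T : Set ℕ, T ⊆ R →
          (N (Outside T l (Real.log X ^ B) X (X + Y)) X (X + Y) : ℝ) ≤ ε * Y / Real.log X := by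
  refine ⟨?_, ?_, fun θ hθ hθ1 h1 h2 h3 => ⟨?_, fun l => ?_⟩, fun θ hθ l hl ε hε => ?_⟩
  · intro q n hq hn hp
    refine ⟨?_, ?_⟩
    · have hx : 1 ≤ 2 * q * n := Nat.mul_pos (Nat.mul_pos two_pos hq.pos) hn
      exact Pool.Agent.Y677.KU.rough_of_prime_sq (2 * q * n) 1 s hx (by omega) hp
    · rw [Nat.primeFactorsList_prime hp]
      exact hr
  · intro q n hq hp
    refine ⟨?_, ?_⟩
    · have hx : 1 ≤ (2 * n + 1) * q := Nat.mul_pos (by omega) hq.pos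
      exact Pool.Agent.Y677.KU.rough_of_prime_sq ((2 * n + 1) * q) 4 s hx (by omega) hp
    · rw [Nat.primeFactorsList_prime hp]
      exact hr
  · obtain ⟨κ, hκ, h⟩ := Pool.Agent.Y677.KU.fam_lower _ (Pool.Agent.Y677.KU.sqF_sys 1 le_rfl) θ hθ hθ1
      r s (by rw [Pool.Agent.Y677.KU.sqF_deg]; push_cast; linarith)
      (by rw [Pool.Agent.Y677.KU.sqF_deg]; push_cast; linarith) h3
    obtain ⟨κ', hκ', h'⟩ := Pool.Agent.Y677.KU.fam_lower _
      (Pool.Agent.Y677.KU.sqF_sys 4 (by norm_num)) θ hθ hθ1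
      r s (by rw [Pool.Agent.Y677.KU.sqF_deg]; push_cast; linarith)
      (by rw [Pool.Agent.Y677.KU.sqF_deg]; push_cast; linarith) h3
    refine ⟨min κ κ', lt_min hκ hκ', ?_⟩
    filter_upwards [h, h', eventually_ge_atTop 3] with X g g' hX3 q Y hq hY hYX P R hF
    have hX3r : (3 : ℝ) ≤ X := by exact_mod_cast hX3
    have hlog : 0 < Real.log X := Real.log_pos (by linarith)
    have hY' : (((2 * q : ℕ) : ℝ) * X) ^ θ ≤ Y := by
      push_cast at hY ⊢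
      exact hY
    have hY0 : (0 : ℝ) ≤ Y := Nat.cast_nonneg _
    rcases hF with ⟨rfl, _⟩ | ⟨hq2, rfl, _⟩
    · rw [PA_eq]
      refine le_trans ?_ (g (2 * q) 0 Y (Nat.mul_pos two_pos hq.pos) (Nat.zero_le _) (copA q) hY' hYX)
      exact div_le_div_of_nonneg_right (mul_le_mul_of_nonneg_right (min_le_left _ _) hY0) hlog.le
    · rw [PB_eq]
      refine le_trans ?_ (g' (2 * q) q Y (Nat.mul_pos two_pos hq.pos) (by omega) (copB q hq hq2)
        hY' hYX)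
      exact div_le_div_of_nonneg_right (mul_le_mul_of_nonneg_right (min_le_right _ _) hY0) hlog.le
  · obtain ⟨B, h⟩ := Pool.Agent.Y677.KU.fam_exists _ (Pool.Agent.Y677.KU.sqF_sys 1 le_rfl) 2 θ hθ hθ1
      r s (by omega) (by rw [Pool.Agent.Y677.KU.sqF_deg]; push_cast; linarith)
      (by rw [Pool.Agent.Y677.KU.sqF_deg]; push_cast; linarith) h3 l
    obtain ⟨B', h'⟩ := Pool.Agent.Y677.KU.fam_exists _
      (Pool.Agent.Y677.KU.sqF_sys 4 (by norm_num)) 2 θ hθ hθ1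
      r s (by omega) (by rw [Pool.Agent.Y677.KU.sqF_deg]; push_cast; linarith)
      (by rw [Pool.Agent.Y677.KU.sqF_deg]; push_cast; linarith) h3 l
    refine ⟨max B B', ?_⟩
    filter_upwards [h, h', eventually_ge_atTop 3] with X g g' hX3 q Y hq hY hYX P R hF
    have hX3r : (3 : ℝ) ≤ X := by exact_mod_cast hX3
    have hlog : 1 ≤ Real.log X := by
      rw [Real.le_log_iff_exp_le (by linarith)]
      linarith [Real.exp_one_lt_d9]
    have hY' : (((2 * q : ℕ) : ℝ) * X) ^ θ ≤ Y := by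
      push_cast at hY ⊢
      exact hY
    rcases hF with ⟨rfl, _⟩ | ⟨hq2, rfl, _⟩
    · rw [PA_eq]
      obtain ⟨u, d, h4, h5, h6⟩ := g (2 * q) 0 Y (Nat.mul_pos two_pos hq.pos) (omega_le q hq)
        (Nat.zero_le _) (copA q) hY' hYX
      exact ⟨u, d, h4, h5.trans (pow_le_pow_right₀ hlog (le_max_left _ _)), h6⟩
    · rw [PB_eq]
      obtain ⟨u, d, h4, h5, h6⟩ := g' (2 * q) q Y (Nat.mul_pos two_pos hq.pos) (omega_le q hq)
        (by omega) (copB q hq hq2) hY' hYX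
      exact ⟨u, d, h4, h5.trans (pow_le_pow_right₀ hlog (le_max_right _ _)), h6⟩
  · obtain ⟨B, h⟩ := Pool.Agent.Y677.KU.fam_hered _ (Pool.Agent.Y677.KU.sqF_sys 1 le_rfl) 2
      s (by omega) θ hθ l hl ε hε
    obtain ⟨B', h'⟩ := Pool.Agent.Y677.KU.fam_hered _
      (Pool.Agent.Y677.KU.sqF_sys 4 (by norm_num)) 2 s (by omega) θ hθ l hl ε hε
    refine ⟨max B B', ?_⟩
    filter_upwards [h, h', eventually_ge_atTop 3] with X g g' hX3 q Y hq hY hYX P R hF T hT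
    have hX3r : (3 : ℝ) ≤ X := by exact_mod_cast hX3
    have hlog : 1 ≤ Real.log X := by
      rw [Real.le_log_iff_exp_le (by linarith)]
      linarith [Real.exp_one_lt_d9]
    have hY' : (((2 * q : ℕ) : ℝ) * X) ^ θ ≤ Y := by
      push_cast at hY ⊢
      exact hY
    have hmono : ∀ b : ℕ, b ≤ max B B' →
        (N (Outside T l (Real.log X ^ (max B B')) X (X + Y)) X (X + Y) : ℝ) ≤
          (N (Outside T l (Real.log X ^ b) X (X + Y)) X (X + Y) : ℝ) := by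
      intro b hb
      refine Nat.cast_le.2 (Pool.Agent.TH977.PW.N_mono _ _ _ _ fun m _ _ hm => ?_)
      obtain ⟨k1, k2⟩ := hm
      exact ⟨k1, fun ⟨u, d, k3, k4, k5, k6⟩ =>
        k2 ⟨u, d, k3, k4.trans (pow_le_pow_right₀ hlog hb), k5, k6⟩⟩
    rcases hF with ⟨_, rfl⟩ | ⟨hq2, _, rfl⟩
    · rw [RA_eq] at hT
      exact (hmono B (le_max_left _ _)).trans (g (2 * q) 0 Y (Nat.mul_pos two_pos hq.pos)
        (omega_le q hq) (Nat.zero_le _) (copA q) hY' hYX T hT)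
    · rw [RB_eq] at hT
      exact (hmono B' (le_max_right _ _)).trans (g' (2 * q) q Y (Nat.mul_pos two_pos hq.pos)
        (omega_le q hq) (by omega) (copB q hq hq2) hY' hYX T hT)

end Pool.Agent.Results.MP_4b1228_nt.UniformInQ
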